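import Pool.Agent.DPF.Stmts

/-!
# Squad DPF, row SEF: the numbers
-/

namespace Pool.Agent.DPF.H39

open Finset Pool.Agent.DPS

theorem mm_succ {ν k b e : ℕ} (hb : b < ν) (he : e + b ≤ k) :
    (mm ν k (b + 1) e : ℝ) * ((ν : ℝ) - b) = (mm ν k b e : ℝ) * ((k : ℝ) - e - b) := by
  obtain ⟨a, ha⟩ : ∃ a, a = k - e - b := ⟨_, rfl⟩
  obtain ⟨c, hc⟩ : ∃ c, ν = b + c + 1 := ⟨ν - b - 1, by omega⟩
  have hk : k = e + b + a := by omega
  have e1 : (ν : ℝ) - b = ((c + 1 : ℕ) : ℝ) := by
    rw [hc]
    push_cast
    ring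
  have e2 : (k : ℝ) - e - b = (a : ℝ) := by
    rw [hk]
    push_cast
    ring
  rw [e1, e2]
  unfold mm
  rw [if_pos he, ← ha]
  rcases Nat.eq_zero_or_pos a with h0 | h0
  · rw [if_neg (by omega), h0]
    simp
  · obtain ⟨a', rfl⟩ : ∃ a', a = a' + 1 := ⟨a - 1, by omega⟩
    rw [if_pos (by omega), show k - e - (b + 1) = a' by omega, show ν - (b + 1) = c by omega,
      show ν - b = c + 1 by omega]
    have h := Nat.add_one_mul_choose_eq c a'
    rw [mul_comm]
    exact_mod_cast h

theorem sef : SEFStmt := by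
  intro ν k b e
  refine ⟨fun hb => ?_, fun h1 hb h => ?_, fun hb => ?_⟩
  · by_cases he : e + b ≤ k
    · have hνb : (0 : ℝ) < (ν : ℝ) - b := by
        have : (b : ℝ) < ν := by exact_mod_cast hb
        linarith
      rcases Nat.lt_or_ge e k with hek | hek
      · have hke : (0 : ℝ) < (k : ℝ) - e := by
          have : (e : ℝ) < k := by exact_mod_cast hek
          linarith
        have h := mm_succ hb he
        have h' : (mm ν k (b + 1) e : ℝ) = (mm ν k b e : ℝ) * ((k : ℝ) - e - b) / ((ν : ℝ) - b) := by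
          rw [← h, mul_div_cancel_right₀ _ hνb.ne']
        rw [h', se]
        refine le_of_eq ?_
        field_simp
        ring
      · have hb0 : b = 0 := by omega
        have hek' : e = k := by omega
        subst hb0
        subst hek'
        have h1 : mm ν e 1 e = 0 := by
          unfold mm
          rw [if_neg (by omega)]
        simp only [zero_add, h1, Nat.cast_zero, zero_mul, zero_div, le_refl, Nat.cast_nonneg]
    · have h1 : mm ν k b e = 0 := by
        unfold mm
        rw [if_neg he]
      have h2 : mm ν k (b + 1) e = 0 := by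
        unfold mm
        rw [if_neg (by omega)]
      rw [h1, h2]
      simp
  · unfold mm
    rcases h with h | h
    · rw [if_neg (by omega)]
    · split_ifs with h2
      · exact Nat.choose_eq_zero_of_lt (by omega)
      · rfl
  · unfold wl
    have hνb : (0 : ℝ) < (ν : ℝ) - b := by
      have : (b : ℝ) < ν := by exact_mod_cast hb
      linarith
    rcases Nat.eq_zero_or_pos b with h0 | h0
    · rw [h0]
      simp
    · rw [if_neg (by omega)]
      obtain ⟨b', rfl⟩ : ∃ b', b = b' + 1 := ⟨b - 1, by omega⟩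
      have h := Nat.choose_succ_right_eq (ν - 1) b'
      rw [show ν - 1 - b' = ν - (b' + 1) by omega] at h
      have h' : ((ν - 1).choose (b' + 1) : ℝ) * ((b' + 1 : ℕ) : ℝ) =
          ((ν - 1).choose b' : ℝ) * ((ν : ℝ) - ((b' + 1 : ℕ) : ℝ)) := by
        rw [← Nat.cast_sub hb.le]
        exact_mod_cast h
      rw [mul_div_assoc', h', Nat.add_sub_cancel, mul_div_cancel_right₀ _ hνb.ne']

end Pool.Agent.DPF.H39
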