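import Pool.Agent.DPF.StmtsM

/-!
# Squad DPF, row WTS: weights of the modes
-/

namespace Pool.Agent.DPF.H39

open Finset Pool.Agent.DPS

theorem sum_wt_aux (δ : ℕ → ℝ) (d : ℕ) (A B : ℝ) (n : ℕ) :
    ∑ i ∈ range n, (δ (i + 1) - δ i) * (if i < d then A else B) =
      if n ≤ d then (δ n - δ 0) * A else (δ d - δ 0) * A + (δ n - δ d) * B := by
  induction n with
  | zero => simp
  | succ n ih =>
    rw [sum_range_succ, ih]
    rcases Nat.lt_trichotomy n d with h | h | h
    · rw [if_pos h.le, if_pos h, if_pos (by omega : n + 1 ≤ d)]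
      ring
    · subst h
      rw [if_pos le_rfl, if_neg (lt_irrefl n), if_neg (by omega : ¬ n + 1 ≤ n)]
    · rw [if_neg (by omega : ¬ n ≤ d), if_neg (by omega : ¬ n < d), if_neg (by omega : ¬ n + 1 ≤ d)]
      ring

theorem wts : WTSStmt := by
  intro L δ d A B hd h0
  obtain ⟨n, rfl⟩ : ∃ n, L = n + 1 := ⟨L - 1, by omega⟩
  rw [sum_range_succ]
  have h1 : ∑ i ∈ range n, wt (n + 1) δ i * (if i < d then A else B) =
      ∑ i ∈ range n, (δ (i + 1) - δ i) * (if i < d then A else B) := by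
    refine sum_congr rfl fun i hi => ?_
    have hi' := mem_range.1 hi
    rw [wt, if_neg (by omega : ¬ i + 1 = n + 1)]
  rw [h1, sum_wt_aux, wt, if_pos rfl, if_neg (by omega : ¬ n < d), h0]
  rcases Nat.lt_or_ge d n with h | h
  · rw [if_neg (by omega : ¬ n ≤ d)]
    ring
  · have hn : n = d := by omega
    subst hn
    rw [if_pos le_rfl]
    ring

end Pool.Agent.DPF.H39
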